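import Pool.Agent.helper39.MT.Defs

/-!
# Maynard-Tao, module R4: coefficient sets
-/

namespace Pool.Agent.helper48.MT

open Finset Pool.Agent.helper39.MT

lemma infSol_swap {a b : ℕ} {c : ℤ} (h : InfSol a b c) : InfSol b a (-c) := by
  unfold InfSol at *
  refine (h.image (f := Prod.swap) (Prod.swap_injective.injOn)).mono ?_
  rintro _ ⟨⟨p, q⟩, ⟨hp, hq, he⟩, rfl⟩
  refine ⟨hq, hp, ?_⟩
  simp only [Prod.swap] at *
  linarith

/-- Fewer than `p` classes can be avoided modulo `p`. -/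
lemma avoid {k p : ℕ} (hp : p.Prime) (hk : k < p) (e : Fin k → ℤ) :
    ∃ n : ℤ, ∀ i, ¬ (p : ℤ) ∣ n + e i := by
  have : Fact p.Prime := ⟨hp⟩
  have hns : ¬ Function.Surjective (fun i : Fin k => -((e i : ℤ) : ZMod p)) := by
    intro hs
    have := Fintype.card_le_of_surjective _ hs
    rw [ZMod.card, Fintype.card_fin] at this
    omega
  rw [Function.Surjective] at hns
  push Not at hns
  obtain ⟨a, ha⟩ := hns
  refine ⟨(a.val : ℤ), fun i hi => ha i ?_⟩
  rw [← ZMod.intCast_zmod_eq_zero_iff_dvd] at hi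
  push_cast at hi
  rw [ZMod.natCast_zmod_val] at hi
  exact (eq_neg_of_add_eq_zero_left hi).symm

open Classical in
/-- R4 from CO1. -/
theorem coefficient_sets_of (h : ∃ k : ℕ, 2 ≤ k ∧ ∀ (u : Fin k → ℕ) (e : Fin k → ℤ),
    (∀ i, 0 < u i) → Function.Injective e →
    (∀ p : ℕ, p.Prime → ∃ n : ℤ, ∀ i, ((p ^ (u i).factorization p : ℕ) : ℤ) ∣ n + e i ∧
      ¬ ((p ^ ((u i).factorization p + 1) : ℕ) : ℤ) ∣ n + e i) →
    ∃ i j, i ≠ j ∧ InfSol (u i) (u j) (e i - e j)) :
    ∃ k : ℕ, ∀ u : Fin k → ℕ, (∀ i, 0 < u i) →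
    ∃ δ : ℝ, 0 < δ ∧ ∃ N₀ : ℕ, ∀ N : ℕ, N₀ ≤ N → ∃ i j, i ≠ j ∧
      δ * (N : ℝ) ≤ #{c ∈ Icc 1 N | InfSol (u i) (u j) (c : ℤ)} := by
  obtain ⟨k, hk, H⟩ := h
  refine ⟨k, fun u hu => ?_⟩
  obtain ⟨Q, hQ⟩ : ∃ Q : ℕ, Q = ∏ i, u i := ⟨_, rfl⟩
  have hQpos : 0 < Q := by rw [hQ]; exact Finset.prod_pos fun i _ => hu i
  have huQ : ∀ i, u i ∣ Q := fun i => by rw [hQ]; exact Finset.dvd_prod_of_mem _ (mem_univ i)
  have huQ' : ∀ i, u i ≤ Q := fun i => Nat.le_of_dvd hQpos (huQ i)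
  obtain ⟨P, hP⟩ : ∃ P : ℕ, P = k.factorial * Q := ⟨_, rfl⟩
  have hPpos : 0 < P := by rw [hP]; exact Nat.mul_pos (Nat.factorial_pos k) hQpos
  have hQP : Q ∣ P := by rw [hP]; exact Dvd.intro_left _ rfl
  obtain ⟨e, he⟩ : ∃ e : ℕ → Fin k → ℤ,
      ∀ t i, e t i = (u i : ℤ) + P * Q * t * ((i : ℕ) + 1) := ⟨_, fun _ _ => rfl⟩
  -- the differences
  have hdiff : ∀ t i j, e t i - e t j = (u i : ℤ) - u j + P * Q * t * (((i : ℕ) : ℤ) - (j : ℕ)) := by
    intro t i j
    rw [he, he]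
    ring
  have hPQ : (Q : ℤ) ≤ P * Q := by
    have : (1 : ℤ) ≤ P := by exact_mod_cast hPpos
    have hQ0 : (0 : ℤ) ≤ Q := by positivity
    nlinarith
  have hpos : ∀ t, 1 ≤ t → ∀ i j : Fin k, j < i → 0 < e t i - e t j := by
    intro t ht i j hij
    rw [hdiff]
    have h1 : (1 : ℤ) ≤ u i := by exact_mod_cast hu i
    have h2 : (u j : ℤ) ≤ Q := by exact_mod_cast huQ' j
    have h3 : (1 : ℤ) ≤ ((i : ℕ) : ℤ) - (j : ℕ) := by
      have : (j : ℕ) < i := hij
      omega
    have h4 : (1 : ℤ) ≤ t := by exact_mod_cast ht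
    have h5 : (P : ℤ) * Q ≤ P * Q * t := by
      have : (0 : ℤ) ≤ P * Q := by positivity
      nlinarith
    have h6 : (P : ℤ) * Q * t ≤ P * Q * t * (((i : ℕ) : ℤ) - (j : ℕ)) := by
      have : (0 : ℤ) ≤ P * Q * t := by positivity
      nlinarith
    linarith
  have hinj : ∀ t, 1 ≤ t → Function.Injective (e t) := by
    intro t ht i j hij
    rcases lt_trichotomy i j with hlt | heq | hgt
    · have := hpos t ht j i hlt
      rw [hij] at this
      simp at this
    · exact heq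
    · have := hpos t ht i j hgt
      rw [hij] at this
      simp at this
  have hloc : ∀ t, ∀ p : ℕ, p.Prime → ∃ n : ℤ, ∀ i, ((p ^ (u i).factorization p : ℕ) : ℤ) ∣ n + e t i ∧
      ¬ ((p ^ ((u i).factorization p + 1) : ℕ) : ℤ) ∣ n + e t i := by
    intro t p hp
    by_cases hpP : p ∣ P
    · refine ⟨0, fun i => ?_⟩
      obtain ⟨m, hm⟩ := huQ i
      have hei : e t i = (u i : ℤ) * (1 + P * m * t * ((i : ℕ) + 1)) := by
        rw [he, hm]
        push_cast
        ring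
      rw [zero_add, hei]
      refine ⟨Dvd.dvd.mul_right (by exact_mod_cast Nat.ordProj_dvd (u i) p) _, fun hd => ?_⟩
      have hcop : IsCoprime ((p ^ ((u i).factorization p + 1) : ℕ) : ℤ)
          (1 + P * m * t * ((i : ℕ) + 1)) := by
        push_cast
        refine IsCoprime.pow_left ?_
        obtain ⟨r, hr⟩ := hpP
        refine ⟨-(r * m * t * ((i : ℕ) + 1)), 1, ?_⟩
        rw [hr]
        push_cast
        ring
      have hd' := hcop.dvd_of_dvd_mul_right hd
      have hd'' : p ^ ((u i).factorization p + 1) ∣ u i := by exact_mod_cast hd'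
      exact Nat.pow_succ_factorization_not_dvd (hu i).ne' hp hd''
    · have hkp : k < p := by
        by_contra hcon
        push Not at hcon
        apply hpP
        rw [hP]
        exact Dvd.dvd.mul_right ((Nat.Prime.dvd_factorial hp).2 hcon) _
      obtain ⟨n, hn⟩ := avoid hp hkp (e t)
      refine ⟨n, fun i => ?_⟩
      have hpu : ¬ p ∣ u i := fun hd => hpP ((hd.trans (huQ i)).trans hQP)
      rw [Nat.factorization_eq_zero_of_not_dvd hpu]
      simpa using hn i
  have hkey : ∀ t, 1 ≤ t → ∃ ij : Fin k × Fin k, ij.2 < ij.1 ∧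
      InfSol (u ij.1) (u ij.2) (e t ij.1 - e t ij.2) := by
    intro t ht
    obtain ⟨i, j, hij, hI⟩ := H u (e t) hu (hinj t ht) (hloc t)
    rcases lt_or_gt_of_ne hij with hlt | hgt
    · refine ⟨(j, i), hlt, ?_⟩
      have := infSol_swap hI
      rwa [neg_sub] at this
    · exact ⟨(i, j), hgt, hI⟩
  have : Nonempty (Fin k × Fin k) := ⟨(⟨0, by omega⟩, ⟨0, by omega⟩)⟩
  choose! f hf1 hf2 using hkey
  obtain ⟨M, hM⟩ : ∃ M : ℕ, M = (k + 1) * (P * Q) := ⟨_, rfl⟩
  have hMpos : 0 < M := by rw [hM]; positivity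
  have hMR : (0 : ℝ) < M := by exact_mod_cast hMpos
  have hkR : (0 : ℝ) < k := by exact_mod_cast (by omega : 0 < k)
  refine ⟨1 / (2 * M * k ^ 2), by positivity, M, fun N hN => ?_⟩
  obtain ⟨X, hX⟩ : ∃ X : ℕ, X = N / M := ⟨_, rfl⟩
  have hX1 : 1 ≤ X := by
    rw [hX]
    exact (Nat.one_le_div_iff hMpos).2 hN
  have hMX : M * X ≤ N := by rw [hX]; exact Nat.mul_div_le N M
  have hXN : (N : ℝ) ≤ 2 * M * X := by
    have h1 : N < M * (X + 1) := by
      rw [hX]
      exact Nat.lt_mul_div_succ N hMpos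
    have h2 : M * (X + 1) ≤ M * (2 * X) := Nat.mul_le_mul_left _ (by omega)
    have h3 : N ≤ 2 * M * X := by
      calc N ≤ M * (X + 1) := h1.le
        _ ≤ M * (2 * X) := h2
        _ = 2 * M * X := by ring
    exact_mod_cast h3
  have hne : (univ : Finset (Fin k × Fin k)).Nonempty :=
    ⟨(⟨0, by omega⟩, ⟨0, by omega⟩), mem_univ _⟩
  obtain ⟨⟨i, j⟩, -, hcard⟩ := Finset.exists_le_card_fiber_of_nsmul_le_card_of_maps_to
    (s := Icc 1 X) (t := (univ : Finset (Fin k × Fin k))) (f := f)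
    (b := (X : ℝ) / k ^ 2) (fun a _ => mem_univ _) hne (by
      rw [Nat.card_Icc, Finset.card_univ, Fintype.card_prod, Fintype.card_fin, nsmul_eq_mul]
      rw [Nat.add_sub_cancel]
      push_cast
      have : ((k : ℝ) * k) * ((X : ℝ) / k ^ 2) = X := by
        field_simp
      rw [this])
  -- the fibre is nonempty
  have hXR : (0 : ℝ) < X := by exact_mod_cast hX1
  have hfib : 0 < #{x ∈ Icc 1 X | f x = (i, j)} := by
    have h1 : (0 : ℝ) < (X : ℝ) / k ^ 2 := by positivity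
    exact_mod_cast h1.trans_le hcard
  obtain ⟨t₀, ht₀⟩ := Finset.card_pos.1 hfib
  rw [mem_filter, mem_Icc] at ht₀
  have hji : j < i := by
    have := hf1 t₀ ht₀.1.1
    rw [ht₀.2] at this
    exact this
  refine ⟨i, j, hji.ne', ?_⟩
  have hle : #{x ∈ Icc 1 X | f x = (i, j)} ≤ #{c ∈ Icc 1 N | InfSol (u i) (u j) (c : ℤ)} := by
    refine Finset.card_le_card_of_injOn (fun t => e t i - e t j) ?_ ?_
    · intro t ht
      rw [mem_coe, mem_filter, mem_Icc] at ht
      obtain ⟨⟨ht1, ht2⟩, hft⟩ := ht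
      have hp := hpos t ht1 i j hji
      rw [mem_coe, mem_filter, mem_Icc]
      show (1 ≤ e t i - e t j ∧ e t i - e t j ≤ N) ∧ InfSol (u i) (u j) (e t i - e t j)
      refine ⟨⟨by omega, ?_⟩, ?_⟩
      · have h1 : e t i - e t j ≤ (M : ℤ) * X := by
          rw [hdiff]
          have h1 : (1 : ℤ) ≤ u j := by exact_mod_cast hu j
          have h2 : (u i : ℤ) ≤ Q := by exact_mod_cast huQ' i
          have h3 : ((i : ℕ) : ℤ) - (j : ℕ) ≤ k := by
            have : (i : ℕ) < k := i.2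
            omega
          have h4 : (t : ℤ) ≤ X := by exact_mod_cast ht2
          have h4' : (1 : ℤ) ≤ X := by exact_mod_cast hX1
          have h5 : (0 : ℤ) ≤ P * Q := by positivity
          have h6 : (P : ℤ) * Q * t ≤ P * Q * X := mul_le_mul_of_nonneg_left h4 h5
          have h7 : (P : ℤ) * Q * t * (((i : ℕ) : ℤ) - (j : ℕ)) ≤ P * Q * X * k := by
            refine mul_le_mul h6 h3 ?_ (by positivity)
            have : (j : ℕ) < i := hji
            omega
          have h8 : (P : ℤ) * Q ≤ P * Q * X := by nlinarith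
          rw [hM]
          push_cast
          nlinarith
        have h2 : (M : ℤ) * X ≤ N := by exact_mod_cast hMX
        exact h1.trans h2
      · have := hf2 t ht1
        rw [hft] at this
        exact this
    · intro t ht t' ht' htt
      rw [mem_coe, mem_filter, mem_Icc] at ht ht'
      have hp := hpos t ht.1.1 i j hji
      have hp' := hpos t' ht'.1.1 i j hji
      have heq : e t i - e t j = e t' i - e t' j := htt
      rw [hdiff, hdiff] at heq
      have h3 : ((i : ℕ) : ℤ) - (j : ℕ) ≠ 0 := by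
        have : (j : ℕ) < i := hji
        omega
      have h5 : (P : ℤ) * Q ≠ 0 := by positivity
      have h6 : (P : ℤ) * Q * t * (((i : ℕ) : ℤ) - (j : ℕ)) =
          P * Q * t' * (((i : ℕ) : ℤ) - (j : ℕ)) := by linarith
      have h7 := mul_right_cancel₀ h3 h6
      have h8 := mul_left_cancel₀ h5 h7
      exact_mod_cast h8
  calc (1 / (2 * M * k ^ 2) : ℝ) * N ≤ (1 / (2 * M * k ^ 2)) * (2 * M * X) := by gcongr
    _ = (X : ℝ) / k ^ 2 := by field_simp
    _ ≤ (#{x ∈ Icc 1 X | f x = (i, j)} : ℝ) := hcard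
    _ ≤ _ := by exact_mod_cast hle

end Pool.Agent.helper48.MT
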